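import Pool.Agent.L7h43.QU.Stm

/-! Project QU, part DEC: division by the quintic of the tube (adapted from `L7h36/NQ/Dec.lean` of helper36). -/

namespace Pool.Agent.L7h96.QU

open MvPolynomial Pool.Agent.L7h43.QU

section
variable {R : Type} [CommRing R]

theorem rd_zero : Rd (0 : MvPolynomial (ZMod 3) R) := by
  intro α h
  simp at h

theorem rd_add {f g : MvPolynomial (ZMod 3) R} (hf : Rd f) (hg : Rd g) : Rd (f + g) := by
  classical
  intro α h
  rcases Finset.mem_union.1 (support_add h) with h | h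
  · exact hf α h
  · exact hg α h

theorem rd_sum {ι : Type*} (s : Finset ι) (f : ι → MvPolynomial (ZMod 3) R)
    (h : ∀ i ∈ s, Rd (f i)) : Rd (∑ i ∈ s, f i) := by
  classical
  induction s using Finset.induction_on with
  | empty => simpa using rd_zero
  | insert a s ha ih =>
    rw [Finset.sum_insert ha]
    exact rd_add (h a (Finset.mem_insert_self _ _))
      (ih fun i hi => h i (Finset.mem_insert_of_mem hi))

theorem rd_monomial {α : ZMod 3 →₀ ℕ} (h : α 1 < 3 ∨ α 2 < 2) (c : R) :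
    Rd (monomial α c : MvPolynomial (ZMod 3) R) := by
  classical
  intro β hβ
  have := support_monomial_subset hβ
  rw [Finset.mem_singleton] at this
  rw [this]
  exact h

theorem rd_C_mul {f : MvPolynomial (ZMod 3) R} (hf : Rd f) (c : R) : Rd (C c * f) := by
  intro α h
  apply hf
  rw [mem_support_iff, coeff_C_mul] at h
  rw [mem_support_iff]
  intro h0
  rw [h0, mul_zero] at h
  exact h rfl

theorem rd_X0_mul {f : MvPolynomial (ZMod 3) R} (hf : Rd f) : Rd (X 0 * f) := by
  classical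
  intro α h
  rw [mem_support_iff, mul_comm, coeff_mul_X'] at h
  split_ifs at h with h1
  · have h2 := hf _ (mem_support_iff.2 h)
    have e1 : (α - Finsupp.single (0 : ZMod 3) 1 : ZMod 3 →₀ ℕ) 1 = α 1 := by
      rw [Finsupp.tsub_apply, Finsupp.single_eq_of_ne (by decide), Nat.sub_zero]
    have e2 : (α - Finsupp.single (0 : ZMod 3) 1 : ZMod 3 →₀ ℕ) 2 = α 2 := by
      rw [Finsupp.tsub_apply, Finsupp.single_eq_of_ne (by decide), Nat.sub_zero]
    rwa [e1, e2] at h2
  · exact absurd rfl h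

/-- the reduced part and the rest -/
theorem split5 (d : ℕ) (f : MvPolynomial (ZMod 3) R) (hf : f.IsHomogeneous d) :
    ∃ r u : MvPolynomial (ZMod 3) R, f = r + X 1 ^ 3 * X 2 ^ 2 * u ∧ r.IsHomogeneous d ∧ Rd r ∧
      u.IsHomogeneous (d - 5) ∧ (d < 5 → u = 0) := by
  classical
  obtain ⟨β, hβ⟩ : ∃ β : ZMod 3 →₀ ℕ, β = Finsupp.single 1 3 + Finsupp.single 2 2 := ⟨_, rfl⟩
  have hβ1 : (monomial β (1 : R) : MvPolynomial (ZMod 3) R) = X 1 ^ 3 * X 2 ^ 2 := by
    rw [hβ, X_pow_eq_monomial, X_pow_eq_monomial, monomial_mul, mul_one]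
  have hβd : β.degree = 5 := by
    rw [hβ, map_add, Finsupp.degree_single, Finsupp.degree_single]
  have hle : ∀ α : ZMod 3 →₀ ℕ, ¬ (α 1 < 3 ∨ α 2 < 2) → β ≤ α := by
    intro α h
    push Not at h
    intro i
    rw [hβ, Finsupp.add_apply]
    by_cases h1 : i = 1
    · subst h1
      rw [Finsupp.single_eq_same, Finsupp.single_eq_of_ne (by decide)]
      exact h.1
    · by_cases h2 : i = 2
      · subst h2
        rw [Finsupp.single_eq_same, Finsupp.single_eq_of_ne (by decide)]
        simpa using h.2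
      · rw [Finsupp.single_eq_of_ne h1, Finsupp.single_eq_of_ne h2]
        exact Nat.zero_le _
  have hdeg : ∀ α ∈ f.support, α.degree = d := by
    intro α h
    have := hf (mem_support_iff.1 h)
    rw [Finsupp.degree_eq_weight_one (R := ℕ)]
    exact this
  refine ⟨∑ α ∈ f.support.filter (fun α => α 1 < 3 ∨ α 2 < 2), monomial α (f.coeff α),
    ∑ α ∈ f.support.filter (fun α => ¬ (α 1 < 3 ∨ α 2 < 2)), monomial (α - β) (f.coeff α),
    ?_, ?_, ?_, ?_, ?_⟩
  · conv_lhs => rw [f.as_sum]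
    rw [← Finset.sum_filter_add_sum_filter_not f.support (fun α => α 1 < 3 ∨ α 2 < 2)]
    congr 1
    rw [Finset.mul_sum]
    refine Finset.sum_congr rfl fun α hα => ?_
    rw [← hβ1, monomial_mul, one_mul, add_tsub_cancel_of_le (hle α (Finset.mem_filter.1 hα).2)]
  · refine IsHomogeneous.sum _ _ _ fun α hα => ?_
    exact isHomogeneous_monomial _ (hdeg α (Finset.mem_filter.1 hα).1)
  · exact rd_sum _ _ fun α hα => rd_monomial (Finset.mem_filter.1 hα).2 _
  · refine IsHomogeneous.sum _ _ _ fun α hα => ?_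
    refine isHomogeneous_monomial _ ?_
    have h1 := hle α (Finset.mem_filter.1 hα).2
    have h2 := hdeg α (Finset.mem_filter.1 hα).1
    have h3 : (α - β).degree + β.degree = α.degree := by
      rw [← map_add, tsub_add_cancel_of_le h1]
    omega
  · intro hd
    rw [Finset.sum_eq_zero]
    intro α hα
    exfalso
    have h1 := hle α (Finset.mem_filter.1 hα).2
    have h2 := hdeg α (Finset.mem_filter.1 hα).1
    have h3 : (α - β).degree + β.degree = α.degree := by
      rw [← map_add, tsub_add_cancel_of_le h1]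
    omega

/-- the part of the quintic divisible by `X 0` -/
noncomputable def TT (κ : R) : MvPolynomial (ZMod 3) R :=
  -X 0 ^ 2 * (X 2 ^ 2 - C 37 * X 1 * X 2 + C 160 * X 1 ^ 2) +
    X 0 * X 1 * (C 3 * X 2 ^ 2 + C 52 * X 1 * X 2 + C 16 * X 1 ^ 2) -
    X 1 ^ 2 * X 2 * (C 3 * X 2 + C 8 * X 1) - C κ * X 0 ^ 4

theorem Qf_eq (κ : R) : Qf R - C κ * X 0 ^ 5 = X 1 ^ 3 * X 2 ^ 2 + X 0 * TT κ := by
  unfold Qf qv TT
  simp only [map_ofNat]
  ring

theorem TT_hom (κ : R) : (TT κ).IsHomogeneous 4 := by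
  have hX : ∀ i : ZMod 3, (X i : MvPolynomial (ZMod 3) R).IsHomogeneous 1 :=
    fun i => isHomogeneous_X R i
  have hc : ∀ (c : R) (i : ZMod 3), (C c * X i : MvPolynomial (ZMod 3) R).IsHomogeneous 1 := by
    intro c i
    simpa using (isHomogeneous_C (ZMod 3) c).mul (hX i)
  have hc2 : ∀ (c : R) (i : ZMod 3), (C c * X i ^ 2 : MvPolynomial (ZMod 3) R).IsHomogeneous 2 := by
    intro c i
    simpa using (isHomogeneous_C (ZMod 3) c).mul ((hX i).pow 2)
  unfold TT
  refine IsHomogeneous.sub (IsHomogeneous.sub (IsHomogeneous.add ?_ ?_) ?_) ?_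
  · have h1 : (-X 0 ^ 2 : MvPolynomial (ZMod 3) R).IsHomogeneous 2 := by
      simpa using ((hX 0).pow 2).neg
    refine h1.mul (IsHomogeneous.add (IsHomogeneous.sub ?_ ?_) (hc2 160 1))
    · simpa using (hX 2).pow 2
    · exact (hc 37 1).mul (hX 2)
  · exact ((hX 0).mul (hX 1)).mul (((hc2 3 2).add ((hc 52 1).mul (hX 2))).add (hc2 16 1))
  · have h2 : (X 1 ^ 2 * X 2 : MvPolynomial (ZMod 3) R).IsHomogeneous 3 := by
      simpa using ((hX 1).pow 2).mul (hX 2)
    exact h2.mul ((hc 3 2).add (hc 8 1))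
  · have := (isHomogeneous_C (ZMod 3) κ).mul ((hX 0).pow 4)
    simpa using this

end

theorem s_DEC : S_DEC := by
  intro R _ _ κ d
  induction d with
  | zero =>
    intro f hf
    obtain ⟨r, u, h1, h2, h3, h4, h5⟩ := split5 0 f hf
    refine ⟨r, 0, ?_, h2, h3, isHomogeneous_zero _ _ _, fun _ => rfl⟩
    rw [h5 (by norm_num)] at h1
    rw [h1, mul_zero, mul_zero]
  | succ d ih =>
    intro f hf
    obtain ⟨r, u, h1, h2, h3, h4, h5⟩ := split5 (d + 1) f hf
    by_cases hd : d + 1 < 5
    · refine ⟨r, 0, ?_, h2, h3, isHomogeneous_zero _ _ _, fun _ => rfl⟩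
      rw [h5 hd] at h1
      rw [h1, mul_zero, mul_zero]
    · obtain ⟨g0, g1, k1, k2, k3, k4, k5⟩ := ih (TT κ * u) (by
        have := (TT_hom κ).mul h4
        rw [show 4 + (d + 1 - 5) = d by omega] at this
        exact this)
      refine ⟨r + C (-1 : R) * (X 0 * g0), u - X 0 * g1, ?_, ?_, ?_, ?_, ?_⟩
      · rw [h1]
        have e := Qf_eq (R := R) κ
        have e2 : X 1 ^ 3 * X 2 ^ 2 * u = (Qf R - C κ * X 0 ^ 5) * u - X 0 * (TT κ * u) := by
          rw [e]
          ring
        rw [e2, k1, map_neg, C_1]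
        ring
      · refine h2.add ?_
        have h6 := (isHomogeneous_C (ZMod 3) (-1 : R)).mul ((isHomogeneous_X R (0 : ZMod 3)).mul k2)
        rw [show 0 + (1 + d) = d + 1 by omega] at h6
        exact h6
      · exact rd_add h3 (rd_C_mul (rd_X0_mul k3) _)
      · refine h4.sub ?_
        by_cases h7 : d < 5
        · rw [k5 h7, mul_zero]
          exact isHomogeneous_zero _ _ _
        · have h8 := (isHomogeneous_X R (0 : ZMod 3)).mul k4
          rw [show 1 + (d - 5) = d + 1 - 5 by omega] at h8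
          exact h8
      · intro h6
        exact absurd h6 hd

end Pool.Agent.L7h96.QU
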